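import Pool.Agent.EGZ4.Seq

/-!
# Zero-sum subsequences of length `n` in `(Z/n)^r`
-/

set_option autoImplicit false

namespace Pool.Agent.EGZ81

open Finset

/-- The number of exponent vectors of degree at most `(p-1) r / p`. -/
lemma low_card_le_choose (p r : ℕ) (hp : 1 ≤ p) (hr : 1 ≤ r) :
    (Pool.Agent.EGZ4.low p r).card ≤ (2 * r - 1).choose r := by
  classical
  have h1 : (piAntidiag (univ : Finset (Fin (r + 1))) (r - 1)).card = (2 * r - 1).choose r := by
    rw [← map_sym_eq_piAntidiag, card_map, sym_univ, card_univ, Sym.card_sym_eq_choose, Fintype.card_fin]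
    have e1 : r + 1 + (r - 1) - 1 = 2 * r - 1 := by omega
    rw [e1]
    exact Nat.choose_symm_of_eq_add (by omega)
  rw [← h1]
  apply card_le_card_of_injOn
    (fun m : Fin r → Fin p => (Fin.cons (r - 1 - ∑ i, (m i : ℕ)) (fun i => (m i : ℕ)) : Fin (r + 1) → ℕ))
  · intro m hm
    rw [mem_coe, Pool.Agent.EGZ4.low, mem_filter] at hm
    have h2 : ∑ i, (m i : ℕ) ≤ r - 1 := by
      by_contra hcon
      have h3 : r ≤ ∑ i, (m i : ℕ) := by omega
      have h4 : p * r ≤ (p - 1) * r := (Nat.mul_le_mul_left p h3).trans hm.2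
      have h5 : (p - 1) * r < p * r := Nat.mul_lt_mul_of_pos_right (by omega) (by omega)
      omega
    rw [mem_coe, mem_piAntidiag]
    refine ⟨?_, fun i _ => mem_univ i⟩
    rw [Fin.sum_univ_succ]
    simp only [Fin.cons_zero, Fin.cons_succ]
    omega
  · intro m _ m' _ h
    have h2 := (Fin.cons_inj.mp h).2
    funext i
    exact Fin.ext (congrFun h2 i)

/-- Every family of `C (n-1) + 1` integer vectors contains `n` vectors with sum divisible by `n`. -/
def Good (r C n : ℕ) : Prop :=
  ∀ (ι : Type) (I : Finset ι) (g : ι → Fin r → ℤ), C * (n - 1) + 1 ≤ I.card →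
    ∃ S : Finset ι, S ⊆ I ∧ S.card = n ∧ ∀ c, (n : ℤ) ∣ ∑ i ∈ S, g i c

lemma good_one (r C : ℕ) : Good r C 1 := by
  intro ι I g hI
  obtain ⟨x, hx⟩ := card_pos.mp (by omega : 0 < I.card)
  exact ⟨{x}, singleton_subset_iff.mpr hx, card_singleton x, fun c => by simp⟩

lemma good_dim_zero (C n : ℕ) (hC : 1 ≤ C) (hn : 1 ≤ n) : Good 0 C n := by
  intro ι I g hI
  have h1 : n ≤ I.card := by
    have : 1 * (n - 1) ≤ C * (n - 1) := Nat.mul_le_mul_right _ hC
    omega
  obtain ⟨S, hS, hc⟩ := exists_subset_card_eq h1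
  exact ⟨S, hS, hc, fun c => c.elim0⟩

lemma extract {r C m : ℕ} (hm : Good r C m) (k : ℕ) : ∀ (ι : Type) (I : Finset ι)
    (g : ι → Fin r → ℤ), C * (m - 1) + 1 + k * m ≤ I.card + m →
    ∃ B : Fin k → Finset ι, (∀ j, B j ⊆ I) ∧ (∀ j, (B j).card = m) ∧
      (∀ i j, i ≠ j → Disjoint (B i) (B j)) ∧ ∀ j c, (m : ℤ) ∣ ∑ i ∈ B j, g i c := by
  classical
  induction k with
  | zero =>
    intro ι I g _
    exact ⟨fun j => j.elim0, fun j => j.elim0, fun j => j.elim0, fun i => i.elim0, fun j => j.elim0⟩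
  | succ k ih =>
    intro ι I g hI
    rw [Nat.succ_mul] at hI
    obtain ⟨B0, hB0, hc0, hd0⟩ := hm ι I g (by
      have := Nat.zero_le (k * m)
      omega)
    have hcard : (I \ B0).card + B0.card = I.card := card_sdiff_add_card_eq_card hB0
    obtain ⟨B, hB, hc, hdis, hd⟩ := ih ι (I \ B0) g (by omega)
    have h0 : ∀ j : Fin k, Disjoint B0 (B j) := fun j => disjoint_of_subset_right (hB j) disjoint_sdiff
    refine ⟨Fin.cons B0 B, ?_, ?_, ?_, ?_⟩
    · intro j
      refine Fin.cases ?_ (fun j => ?_) j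
      · exact hB0
      · rw [Fin.cons_succ]; exact (hB j).trans sdiff_subset
    · intro j
      refine Fin.cases ?_ (fun j => ?_) j
      · exact hc0
      · rw [Fin.cons_succ]; exact hc j
    · intro i j
      refine Fin.cases ?_ (fun i => ?_) i
      · refine Fin.cases ?_ (fun j => ?_) j
        · intro h; exact absurd rfl h
        · intro _; rw [Fin.cons_zero, Fin.cons_succ]; exact h0 j
      · refine Fin.cases ?_ (fun j => ?_) j
        · intro _; rw [Fin.cons_zero, Fin.cons_succ]; exact (h0 i).symm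
        · intro hij
          rw [Fin.cons_succ, Fin.cons_succ]
          exact hdis i j (fun h => hij (by rw [h]))
    · intro j
      refine Fin.cases ?_ (fun j => ?_) j
      · exact hd0
      · rw [Fin.cons_succ]; exact hd j

lemma good_mul {r C m n : ℕ} (hm1 : 1 ≤ m) (hn1 : 1 ≤ n) (hm : Good r C m) (hn : Good r C n) :
    Good r C (m * n) := by
  classical
  intro ι I g hI
  obtain ⟨a, rfl⟩ := Nat.exists_eq_add_of_le' hm1
  obtain ⟨b, rfl⟩ := Nat.exists_eq_add_of_le' hn1
  have hI' : C * (a + b * (a + 1)) + 1 ≤ I.card := by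
    have : (a + 1) * (b + 1) - 1 = a + b * (a + 1) := by
      have : (a + 1) * (b + 1) = a + b * (a + 1) + 1 := by ring
      omega
    rwa [this] at hI
  obtain ⟨B, hB, hc, hdis, hd⟩ := extract hm (C * b + 1) ι I g (by
    have h1 : C * (a + 1 - 1) + 1 + (C * b + 1) * (a + 1) = C * (a + b * (a + 1)) + 1 + (a + 1) := by
      rw [Nat.add_sub_cancel]; ring
    rw [h1]
    omega)
  choose g' hg' using hd
  obtain ⟨T, -, hTc, hTd⟩ := hn (Fin (C * b + 1)) univ g' (by
    rw [card_univ, Fintype.card_fin, Nat.add_sub_cancel])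
  have hpd : ∀ i ∈ T, ∀ j ∈ T, i ≠ j → Disjoint (B i) (B j) := fun i _ j _ hij => hdis i j hij
  refine ⟨T.biUnion B, ?_, ?_, ?_⟩
  · intro x hx
    obtain ⟨j, _, hxj⟩ := mem_biUnion.mp hx
    exact hB j hxj
  · rw [card_biUnion hpd, sum_congr rfl (fun j _ => hc j), sum_const, hTc, smul_eq_mul, mul_comm]
  · intro c
    rw [sum_biUnion hpd, sum_congr rfl (fun j _ => hg' j c), ← mul_sum]
    obtain ⟨t, ht⟩ := hTd c
    rw [ht]
    refine ⟨t, ?_⟩
    push_cast
    ring

lemma good_prime (r p : ℕ) (hp : p.Prime) (hr : 1 ≤ r) : Good r ((2 * r).choose r) p := by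
  classical
  intro ι I g hI
  have : Fact p.Prime := ⟨hp⟩
  have hp2 := hp.two_le
  have hch : (2 * r).choose r = 2 * (2 * r - 1).choose r := by
    obtain ⟨s, rfl⟩ := Nat.exists_eq_add_of_le' hr
    have e1 : 2 * (s + 1) = (2 * s + 1) + 1 := by ring
    have e2 : 2 * (s + 1) - 1 = 2 * s + 1 := by omega
    rw [e2, e1, Nat.choose_succ_succ]
    have e3 : (2 * s + 1).choose s = (2 * s + 1).choose (s + 1) := Nat.choose_symm_of_eq_add (by omega)
    rw [e3]
    ring
  have hlt : (2 * p - 2) * (Pool.Agent.EGZ4.low p r).card < Fintype.card I := by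
    rw [Fintype.card_coe]
    have h1 := low_card_le_choose p r (by omega) hr
    have h2 : (2 * p - 2) * (Pool.Agent.EGZ4.low p r).card ≤ (2 * p - 2) * (2 * r - 1).choose r :=
      Nat.mul_le_mul_left _ h1
    have h3 : (2 * p - 2) * (2 * r - 1).choose r = (2 * r).choose r * (p - 1) := by
      rw [hch]
      have : 2 * p - 2 = 2 * (p - 1) := by omega
      rw [this]; ring
    omega
  obtain ⟨Z, hZc, hZs⟩ := Pool.Agent.EGZ4.seq_main (p := p) (n := r)
    (fun (v : I) c => ((g v c : ℤ) : ZMod p)) hlt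
  refine ⟨Z.map (Function.Embedding.subtype _), ?_, ?_, ?_⟩
  · intro x hx
    obtain ⟨y, _, rfl⟩ := mem_map.mp hx
    exact y.2
  · rw [card_map, hZc]
  · intro c
    rw [← ZMod.intCast_zmod_eq_zero_iff_dvd, sum_map]
    have h1 := congrFun hZs c
    rw [Finset.sum_apply] at h1
    push_cast
    exact h1

/-- **Theorem.** -/
theorem good_all (r n : ℕ) (hn : 1 ≤ n) : Good r ((2 * r).choose r) n := by
  rcases Nat.eq_zero_or_pos r with rfl | hr
  · exact good_dim_zero _ _ (by simp) hn
  · have key : ∀ n : ℕ, 1 ≤ n → Good r ((2 * r).choose r) n := by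
      intro n
      induction n using induction_on_primes with
      | zero => intro h; omega
      | one => intro _; exact good_one _ _
      | prime_mul p a hp ih =>
        intro h
        have ha : 1 ≤ a := by
          rcases Nat.eq_zero_or_pos a with h0 | h0
          · rw [h0] at h; simp at h
          · exact h0
        exact good_mul hp.one_le ha (good_prime r p hp hr) (ih ha)
    exact key n hn

/-- The version for sequences over `(Z/n)^r`. -/
theorem exists_zero_sum (r n s : ℕ) (hn : 1 ≤ n) (hs : (2 * r).choose r * (n - 1) + 1 ≤ s)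
    (g : Fin s → Fin r → ZMod n) : ∃ S : Finset (Fin s), S.card = n ∧ ∑ i ∈ S, g i = 0 := by
  obtain ⟨S, -, hc, hd⟩ := good_all r n hn (Fin s) univ (fun i c => ((g i c).cast : ℤ)) (by
    rw [card_univ, Fintype.card_fin]; exact hs)
  refine ⟨S, hc, ?_⟩
  funext c
  have h1 := (ZMod.intCast_zmod_eq_zero_iff_dvd _ n).mpr (hd c)
  push_cast at h1
  rw [Finset.sum_apply, Pi.zero_apply, ← h1]

end Pool.Agent.EGZ81
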