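import Pool.Agent.EGZ81.Strong

/-!
# From popular sums to strong sets
-/

namespace Pool.Agent.EGZ81

open Finset

/-- No `p` distinct elements of `X` have sum zero. -/
def Adm (p : ℕ) {G : Type*} [AddCommGroup G] (X : Finset G) : Prop :=
  ∀ x : Fin p → G, Function.Injective x → (∀ j, x j ∈ X) → ∑ j, x j ≠ 0

section

variable {p : ℕ} {G : Type*} [AddCommGroup G] [DecidableEq G]

omit [DecidableEq G] in
lemma Adm.finset {X : Finset G} (h : Adm p X) (S : Finset G) (hS : S ⊆ X) (hc : S.card = p) :
    ∑ s ∈ S, s ≠ 0 := by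
  have e := S.equivFinOfCardEq hc
  have h1 := h (fun j => (e.symm j).1) (fun i j hij => e.symm.injective (Subtype.ext hij))
    (fun j => hS (e.symm j).2)
  have h2 : ∑ j, (e.symm j).1 = ∑ s ∈ S, s := by
    rw [← sum_coe_sort S, ← Equiv.sum_comp e.symm]
  rwa [h2] at h1

/-- First coordinates of representations of `s` as a sum of two distinct elements of `X`. -/
def rep (X : Finset G) (s : G) : Finset G := X.filter (fun x => s - x ∈ X ∧ x ≠ s - x)

/-- All sums of two distinct elements of `Y` have many representations in `X`. -/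
def Pop (p : ℕ) (X Y : Finset G) : Prop := ∀ a ∈ Y, ∀ b ∈ Y, a ≠ b → 2 * p ≤ (rep X (a + b)).card

/-- Replacement of a balanced multiset by a set. -/
lemma replace {X Y : Finset G} (hYX : Y ⊆ X) (hpop : Pop p X Y) (m : ℕ) :
    2 * m + 1 ≤ p → ∀ Q : Multiset G, (∀ q ∈ Q, q ∈ Y) → Q.card = 2 * m + 1 →
      (∀ q, Q.count q ≤ m + 1) → ∃ S : Finset G, S ⊆ X ∧ S.card = 2 * m + 1 ∧
        ∑ s ∈ S, s = Q.sum := by
  induction m with
  | zero =>
    intro _ Q hQ hc _
    rw [Multiset.card_eq_one] at hc
    obtain ⟨a, rfl⟩ := hc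
    refine ⟨{a}, ?_, by simp, by simp⟩
    intro x hx
    rw [mem_singleton] at hx
    subst hx
    exact hYX (hQ x (by simp))
  | succ m ih =>
    intro hp Q hQ hc hcount
    -- an element of maximal multiplicity
    have hne : Q.toFinset.Nonempty := by
      rw [Multiset.toFinset_nonempty]
      rintro rfl
      simp at hc
    obtain ⟨a, haQ, hamax⟩ := exists_max_image Q.toFinset (fun q => Q.count q) hne
    rw [Multiset.mem_toFinset] at haQ
    -- another element
    have hb : ∃ b ∈ Q.erase a, b ≠ a := by
      by_contra hcon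
      push Not at hcon
      have h1 : Q.erase a = Multiset.replicate (Q.erase a).card a :=
        Multiset.eq_replicate_card.mpr hcon
      have h2 : (Q.erase a).card = 2 * m + 2 := by
        rw [Multiset.card_erase_of_mem haQ, hc]
        rfl
      have h3 : (Q.erase a).count a = 2 * m + 2 := by
        rw [h1, Multiset.count_replicate_self, h2]
      rw [Multiset.count_erase_self] at h3
      have := hcount a
      omega
    obtain ⟨b, hbQ, hba⟩ := hb
    have hbQ' : b ∈ Q := Multiset.mem_of_mem_erase hbQ
    obtain ⟨R, hR⟩ := Multiset.exists_cons_of_mem hbQ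
    have hQR : Q = a ::ₘ b ::ₘ R := by
      rw [← hR, Multiset.cons_erase haQ]
    have hRc : R.card = 2 * m + 1 := by
      rw [hQR] at hc
      simp at hc
      omega
    have hRcount : ∀ q, R.count q ≤ m + 1 := by
      intro q
      by_cases hqa : q = a
      · have := hcount a
        rw [hQR, Multiset.count_cons_self] at this
        have h2 : R.count a ≤ (b ::ₘ R).count a := Multiset.count_le_count_cons _ _ _
        rw [hqa]
        omega
      · by_contra hlt
        rw [not_le] at hlt
        have hq : q ∈ R := by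
          rw [← Multiset.count_pos]; omega
        have hqQ : q ∈ Q := by rw [hQR]; simp [hq]
        have h1 : Q.count q ≤ Q.count a := hamax q (by rwa [Multiset.mem_toFinset])
        have h2 : R.count q ≤ Q.count q := by
          rw [hQR]
          exact (Multiset.count_le_count_cons _ _ _).trans (Multiset.count_le_count_cons _ _ _)
        have h3 : Q.count q + Q.count a ≤ Q.card := by
          have h4 := Multiset.toFinset_sum_count_eq Q
          rw [← h4]
          have hsub : ({q, a} : Finset G) ⊆ Q.toFinset := by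
            intro z hz
            rw [mem_insert, mem_singleton] at hz
            rw [Multiset.mem_toFinset]
            rcases hz with rfl | rfl
            · exact hqQ
            · exact haQ
          calc Q.count q + Q.count a = ∑ z ∈ ({q, a} : Finset G), Q.count z := by
                rw [sum_pair hqa]
            _ ≤ _ := sum_le_sum_of_subset hsub
        omega
    obtain ⟨S, hSX, hSc, hSs⟩ := ih (by omega) R
      (fun q hq => hQ q (by rw [hQR]; simp [hq])) hRc hRcount
    have haY : a ∈ Y := hQ a haQ
    have hbY : b ∈ Y := hQ b hbQ'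
    have hpp := hpop a haY b hbY (Ne.symm hba)
    -- a fresh pair
    have hfresh : ∃ x ∈ rep X (a + b), x ∉ S ∧ (a + b) - x ∉ S := by
      by_contra hcon
      push Not at hcon
      have hsub : rep X (a + b) ⊆ S ∪ S.image (fun s => (a + b) - s) := by
        intro x hx
        rw [mem_union]
        by_cases hxS : x ∈ S
        · left; exact hxS
        · right
          rw [mem_image]
          exact ⟨(a + b) - x, hcon x hx hxS, by abel⟩
      have h1 := card_le_card hsub
      have h2 := card_union_le S (S.image (fun s => (a + b) - s))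
      have h3 : (S.image (fun s => (a + b) - s)).card ≤ S.card := card_image_le
      omega
    obtain ⟨x, hx, hxS, hyS⟩ := hfresh
    rw [rep, mem_filter] at hx
    obtain ⟨hxX, hyX, hxy⟩ := hx
    refine ⟨insert x (insert ((a + b) - x) S), ?_, ?_, ?_⟩
    · intro z hz
      rw [mem_insert, mem_insert] at hz
      rcases hz with rfl | rfl | hz
      · exact hxX
      · exact hyX
      · exact hSX hz
    · rw [card_insert_of_notMem, card_insert_of_notMem hyS, hSc]
      · ring
      · rw [mem_insert]
        rintro (h | h)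
        · exact hxy h
        · exact hxS h
    · rw [sum_insert, sum_insert hyS, hSs, hQR]
      · simp only [Multiset.sum_cons]
        abel
      · rw [mem_insert]
        rintro (h | h)
        · exact hxy h
        · exact hxS h

/-- No balanced zero sums in a popular subset. -/
lemma no_balanced {X Y : Finset G} (hX : Adm p X) (hYX : Y ⊆ X) (hpop : Pop p X Y) (m : ℕ)
    (hm : p = 2 * m + 1) (Q : Multiset G) (hQ : ∀ q ∈ Q, q ∈ Y) (hc : Q.card = p)
    (hcount : ∀ q, Q.count q ≤ m + 1) : Q.sum ≠ 0 := by
  obtain ⟨S, hSX, hSc, hSs⟩ := replace hYX hpop m hm.ge Q hQ (by rw [hc, hm]) hcount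
  rw [← hSs]
  exact hX.finset S hSX (by rw [hSc, hm])

/-- Good multisets for `a`. -/
def Good (Y : Finset G) (m : ℕ) (a : G) (Q : Multiset G) : Prop :=
  (∀ q ∈ Q, q ∈ Y ∧ q ≠ a) ∧ Q.card + 1 ≤ m ∧ Q.sum = Q.card • a

omit [DecidableEq G] in
lemma good_zero {Y : Finset G} {m : ℕ} (hm : 1 ≤ m) (a : G) : Good Y m a 0 := by
  refine ⟨by simp, by simpa using hm, by simp⟩

/-- Blocking sets. -/
lemma exists_block {X Y : Finset G} (hpG : ∀ g : G, p • g = 0) (hX : Adm p X) (hYX : Y ⊆ X)
    (hpop : Pop p X Y) (m : ℕ) (hm1 : 1 ≤ m) (hm : p = 2 * m + 1) (a : G) (ha : a ∈ Y) :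
    ∃ B : Finset G, B.card + 1 ≤ m ∧ a ∉ B ∧ ∀ R, Good Y m a R → R ≠ 0 → ∃ q ∈ R, q ∈ B := by
  classical
  -- a good multiset of maximal size
  let P : ℕ → Prop := fun n => ∃ Q : Multiset G, Good Y m a Q ∧ Q.card = n
  have hP0 : P 0 := ⟨0, good_zero hm1 a, rfl⟩
  obtain ⟨Q, hQ, hQc⟩ : P (Nat.findGreatest P m) := Nat.findGreatest_spec (Nat.zero_le _) hP0
  refine ⟨Q.toFinset, ?_, ?_, ?_⟩
  · have h1 := Multiset.toFinset_card_le Q
    have h2 := hQ.2.1
    omega
  · rw [Multiset.mem_toFinset]
    intro h
    exact (hQ.1 a h).2 rfl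
  · intro R hR hR0
    by_contra hcon
    push Not at hcon
    have hdis : ∀ q ∈ R, q ∉ Q := fun q hq hq' => hcon q hq (Multiset.mem_toFinset.mpr hq')
    have hRpos : 0 < R.card := Multiset.card_pos.mpr hR0
    have hsum : (Q + R).sum = (Q + R).card • a := by
      rw [Multiset.sum_add, Multiset.card_add, add_smul, hQ.2.2, hR.2.2]
    have hel : ∀ q ∈ Q + R, q ∈ Y ∧ q ≠ a := by
      intro q hq
      rw [Multiset.mem_add] at hq
      rcases hq with hq | hq
      · exact hQ.1 q hq
      · exact hR.1 q hq
    by_cases hbig : (Q + R).card + 1 ≤ m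
    · have hgood : Good Y m a (Q + R) := ⟨hel, hbig, hsum⟩
      have h1 : (Q + R).card ≤ Nat.findGreatest P m :=
        Nat.le_findGreatest (by omega) ⟨Q + R, hgood, rfl⟩
      rw [Multiset.card_add] at h1
      omega
    · rw [not_le] at hbig
      have hQ1 := hQ.2.1
      have hR1 := hR.2.1
      have hcard : (Q + R).card = Q.card + R.card := Multiset.card_add _ _
      let M : Multiset G := (Q + R) + Multiset.replicate (p - (Q + R).card) a
      have hMc : M.card = p := by
        simp only [M]
        rw [Multiset.card_add, Multiset.card_replicate]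
        omega
      apply no_balanced hX hYX hpop m hm M _ hMc
      · -- counts
        intro q
        simp only [M]
        rw [Multiset.count_add, Multiset.count_add, Multiset.count_replicate]
        by_cases hqa : a = q
        · have h1 : Q.count q = 0 := Multiset.count_eq_zero.mpr (fun h => (hQ.1 q h).2 hqa.symm)
          have h2 : R.count q = 0 := Multiset.count_eq_zero.mpr (fun h => (hR.1 q h).2 hqa.symm)
          rw [if_pos hqa, h1, h2]
          omega
        · rw [if_neg hqa]
          have h1 : Q.count q ≤ Q.card := Multiset.count_le_card _ _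
          have h2 : R.count q ≤ R.card := Multiset.count_le_card _ _
          by_cases hqR : q ∈ R
          · have h3 : Q.count q = 0 := Multiset.count_eq_zero.mpr (hdis q hqR)
            omega
          · have h3 : R.count q = 0 := Multiset.count_eq_zero.mpr hqR
            omega
      · -- zero sum
        simp only [M]
        rw [Multiset.sum_add, hsum, Multiset.sum_replicate, ← add_smul]
        have : (Q + R).card + (p - (Q + R).card) = p := by omega
        rw [this, hpG]
      · intro q hq
        simp only [M] at hq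
        rw [Multiset.mem_add] at hq
        rcases hq with hq | hq
        · exact (hel q hq).1
        · rw [Multiset.eq_of_mem_replicate hq]
          exact ha

omit [AddCommGroup G] in
/-- Averaging over subsets. -/
lemma exists_indep (Y : Finset G) (m : ℕ) (B : G → Finset G)
    (hB : ∀ a ∈ Y, (B a).card + 1 ≤ m ∧ a ∉ B a) :
    ∃ Y' ⊆ Y, Y.card ≤ 2 ^ m * Y'.card ∧ ∀ a ∈ Y', ∀ b ∈ Y', b ∉ B a := by
  classical
  let T : Finset G → Finset G := fun S => S.filter (fun a => Disjoint (B a) S)
  have hcount : ∀ a ∈ Y, 2 ^ (Y.card) ≤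
      2 ^ m * (Y.powerset.filter (fun S => a ∈ S ∧ Disjoint (B a) S)).card := by
    intro a ha
    have hinj : ((Y \ (insert a (B a))).powerset).card ≤
        (Y.powerset.filter (fun S => a ∈ S ∧ Disjoint (B a) S)).card := by
      apply card_le_card_of_injOn (fun S => insert a S)
      · intro S hS
        rw [mem_coe, mem_powerset] at hS
        rw [mem_coe, mem_filter, mem_powerset]
        refine ⟨?_, mem_insert_self _ _, ?_⟩
        · intro z hz
          rw [mem_insert] at hz
          rcases hz with rfl | hz
          · exact ha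
          · exact (mem_sdiff.mp (hS hz)).1
        · rw [disjoint_insert_right]
          refine ⟨(hB a ha).2, ?_⟩
          rw [disjoint_left]
          intro z hz hzS
          exact (mem_sdiff.mp (hS hzS)).2 (mem_insert_of_mem hz)
      · intro S hS S' hS' h
        rw [mem_coe, mem_powerset] at hS hS'
        have h1 : a ∉ S := fun h => (mem_sdiff.mp (hS h)).2 (mem_insert_self _ _)
        have h2 : a ∉ S' := fun h => (mem_sdiff.mp (hS' h)).2 (mem_insert_self _ _)
        simp only at h
        rw [← erase_insert h1, ← erase_insert h2, h]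
    rw [card_powerset] at hinj
    have h3 : Y.card ≤ m + (Y \ (insert a (B a))).card := by
      have h4 := card_le_card_sdiff_add_card (s := Y) (t := insert a (B a))
      have h5 := card_insert_le a (B a)
      have h6 := (hB a ha).1
      omega
    calc 2 ^ Y.card ≤ 2 ^ (m + (Y \ (insert a (B a))).card) :=
          Nat.pow_le_pow_right (by norm_num) h3
      _ = 2 ^ m * 2 ^ (Y \ (insert a (B a))).card := by rw [pow_add]
      _ ≤ _ := Nat.mul_le_mul_left _ hinj
  have hdouble : ∑ S ∈ Y.powerset, (T S).card =
      ∑ a ∈ Y, (Y.powerset.filter (fun S => a ∈ S ∧ Disjoint (B a) S)).card := by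
    simp only [card_eq_sum_ones, T, sum_filter]
    rw [sum_congr rfl (g := fun S => ∑ a ∈ Y, if a ∈ S ∧ Disjoint (B a) S then 1 else 0)]
    · rw [sum_comm]
    · intro S hS
      rw [mem_powerset] at hS
      rw [← sum_filter, ← sum_filter]
      apply sum_congr _ (fun _ _ => rfl)
      ext a
      simp only [mem_filter]
      constructor
      · rintro ⟨h1, h2⟩; exact ⟨hS h1, h1, h2⟩
      · rintro ⟨_, h1, h2⟩; exact ⟨h1, h2⟩
  have hex : ∃ S ∈ Y.powerset, Y.card ≤ 2 ^ m * (T S).card := by
    by_contra hcon
    push Not at hcon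
    have h1 : ∑ S ∈ Y.powerset, 2 ^ m * (T S).card < ∑ S ∈ Y.powerset, Y.card :=
      sum_lt_sum_of_nonempty ⟨∅, empty_mem_powerset _⟩ hcon
    rw [← mul_sum, hdouble, mul_sum, sum_const, card_powerset, smul_eq_mul] at h1
    have h2 : ∑ a ∈ Y, 2 ^ Y.card ≤
        ∑ a ∈ Y, 2 ^ m * (Y.powerset.filter (fun S => a ∈ S ∧ Disjoint (B a) S)).card :=
      sum_le_sum hcount
    rw [sum_const, smul_eq_mul] at h2
    have h3 : Y.card * 2 ^ Y.card = 2 ^ Y.card * Y.card := mul_comm _ _
    omega
  obtain ⟨S, hS, hc⟩ := hex
  rw [mem_powerset] at hS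
  refine ⟨T S, (filter_subset _ _).trans hS, hc, ?_⟩
  intro a ha b hb hbB
  simp only [T, mem_filter] at ha hb
  exact (disjoint_left.mp ha.2) hbB hb.1

/-- **Popular subsets contain large strong sets.** -/
theorem exists_strong {X Y : Finset G} (hpG : ∀ g : G, p • g = 0) (hX : Adm p X) (hYX : Y ⊆ X)
    (hpop : Pop p X Y) (m : ℕ) (hm1 : 1 ≤ m) (hm : p = 2 * m + 1) :
    ∃ Y' ⊆ Y, Y.card ≤ 2 ^ m * Y'.card ∧ Strong p Y' := by
  classical
  have hblock : ∀ a : G, ∃ B : Finset G, a ∈ Y → (B.card + 1 ≤ m ∧ a ∉ B ∧
      ∀ R, Good Y m a R → R ≠ 0 → ∃ q ∈ R, q ∈ B) := by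
    intro a
    by_cases ha : a ∈ Y
    · obtain ⟨B, hB⟩ := exists_block hpG hX hYX hpop m hm1 hm a ha
      exact ⟨B, fun _ => hB⟩
    · exact ⟨∅, fun h => (ha h).elim⟩
  choose B hB using hblock
  obtain ⟨Y', hY', hc, hind⟩ := exists_indep Y m B (fun a ha => ⟨(hB a ha).1, (hB a ha).2.1⟩)
  refine ⟨Y', hY', hc, ?_⟩
  intro x hx hs
  by_contra hcon
  push Not at hcon
  obtain ⟨j0, k0, hjk⟩ := hcon
  let M : Multiset G := univ.val.map x
  have hMc : M.card = p := by simp [M]
  have hMs : M.sum = 0 := hs
  have hMel : ∀ q ∈ M, q ∈ Y' := by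
    intro q hq
    simp only [M, Multiset.mem_map] at hq
    obtain ⟨j, _, rfl⟩ := hq
    exact hx j
  have hxM : ∀ j, x j ∈ M := by
    intro j
    simp only [M, Multiset.mem_map]
    exact ⟨j, mem_univ j, rfl⟩
  -- some element has large multiplicity
  have hbig : ∃ a, m + 1 < M.count a := by
    by_contra hcon
    push Not at hcon
    exact no_balanced hX hYX hpop m hm M (fun q hq => hY' (hMel q hq)) hMc hcon hMs
  obtain ⟨a, ha⟩ := hbig
  have haM : a ∈ M := by rw [← Multiset.count_pos]; omega
  have haY' := hMel a haM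
  let R : Multiset G := M.filter (fun q => ¬ (q = a))
  have hsplit : M.filter (fun q => q = a) + R = M := Multiset.filter_add_not _ _
  have hrep : M.filter (fun q => q = a) = Multiset.replicate (M.count a) a :=
    Multiset.filter_eq' _ _
  rw [hrep] at hsplit
  have hcardR : M.count a + R.card = p := by
    rw [← hMc]
    conv_rhs => rw [← hsplit]
    rw [Multiset.card_add, Multiset.card_replicate]
  have hsumR : M.count a • a + R.sum = 0 := by
    rw [← hMs]
    conv_rhs => rw [← hsplit]
    rw [Multiset.sum_add, Multiset.sum_replicate]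
  have hgood : Good Y m a R := by
    refine ⟨?_, ?_, ?_⟩
    · intro q hq
      simp only [R, Multiset.mem_filter] at hq
      exact ⟨hY' (hMel q hq.1), hq.2⟩
    · omega
    · have h1 : M.count a • a + R.card • a = 0 := by
        rw [← add_smul, hcardR, hpG]
      exact add_left_cancel (hsumR.trans h1.symm)
  have hR0 : R ≠ 0 := by
    intro h0
    rw [h0, Multiset.card_zero, add_zero, ← hMc, Multiset.count_eq_card] at hcardR
    exact hjk ((hcardR _ (hxM j0)).symm.trans (hcardR _ (hxM k0)))
  obtain ⟨q, hqR, hqB⟩ := (hB a (hY' haY')).2.2 R hgood hR0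
  have hq' : q ∈ Y' := by
    simp only [R, Multiset.mem_filter] at hqR
    exact hMel q hqR.1
  exact hind a haY' q hq' hqB

end

end Pool.Agent.EGZ81
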