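import Pool.Agent.EGZ81.Comb

/-!
# Restriction to a random graph of an affine map
-/

namespace Pool.Agent.EGZ81

open Finset Matrix

section

variable (p : ℕ) [Fact p.Prime] {n k : ℕ}

/-- Number of matrices with prescribed value at a nonzero vector. -/
lemma card_fiber (z : Fin n → ZMod p) (hz : z ≠ 0) (w : Fin k → ZMod p) :
    p ^ k * (univ.filter (fun M : Matrix (Fin k) (Fin n) (ZMod p) => M *ᵥ z = w)).card =
      Fintype.card (Matrix (Fin k) (Fin n) (ZMod p)) := by
  classical
  let φ : Matrix (Fin k) (Fin n) (ZMod p) →+ (Fin k → ZMod p) :=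
    { toFun := fun M => M *ᵥ z
      map_zero' := Matrix.zero_mulVec z
      map_add' := fun M N => Matrix.add_mulVec M N z }
  obtain ⟨i, hi⟩ := Function.ne_iff.mp hz
  rw [Pi.zero_apply] at hi
  have hsurj : ∀ w, w ∈ Set.range φ := by
    intro w
    refine ⟨fun a b => if b = i then w a * (z i)⁻¹ else 0, ?_⟩
    funext a
    change ∑ b, (if b = i then w a * (z i)⁻¹ else 0) * z b = w a
    rw [sum_eq_single i]
    · rw [if_pos rfl, mul_assoc, inv_mul_cancel₀ hi, mul_one]
    · intro b _ hb
      rw [if_neg hb, zero_mul]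
    · intro h; exact (h (mem_univ i)).elim
  have hfib : ∀ w', (univ.filter (fun M => φ M = w')).card =
      (univ.filter (fun M => φ M = w)).card := fun w' =>
    AddMonoidHom.card_fiber_eq_of_mem_range φ (hsurj w') (hsurj w)
  have h1 : Fintype.card (Matrix (Fin k) (Fin n) (ZMod p)) =
      ∑ w', (univ.filter (fun M => φ M = w')).card := by
    rw [← card_univ]
    exact card_eq_sum_card_fiberwise (fun _ _ => mem_univ _)
  rw [h1, sum_congr rfl (fun w' _ => hfib w'), sum_const, smul_eq_mul, card_univ]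
  congr 1
  simp [ZMod.card]

variable (X : Finset ((Fin n → ZMod p) × (Fin k → ZMod p)))

/-- The part of `X` on the graph of an affine map. -/
def onGraph (q : Matrix (Fin k) (Fin n) (ZMod p) × (Fin k → ZMod p)) :
    Finset ((Fin n → ZMod p) × (Fin k → ZMod p)) :=
  X.filter (fun z => z.2 - q.1 *ᵥ z.1 = q.2)

/-- Ordered pairs of distinct elements whose sum has few representations. -/
def unpop : Finset (((Fin n → ZMod p) × (Fin k → ZMod p)) × ((Fin n → ZMod p) × (Fin k → ZMod p))) :=
  (X ×ˢ X).filter (fun q => q.1 ≠ q.2 ∧ (rep X (q.1 + q.2)).card < 2 * p)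

/-- Unpopular pairs on the graph. -/
def unpopOn (q : Matrix (Fin k) (Fin n) (ZMod p) × (Fin k → ZMod p)) :
    Finset (((Fin n → ZMod p) × (Fin k → ZMod p)) × ((Fin n → ZMod p) × (Fin k → ZMod p))) :=
  (unpop p X).filter (fun r => r.1.2 - q.1 *ᵥ r.1.1 = q.2 ∧ r.2.2 - q.1 *ᵥ r.2.1 = q.2)

lemma unpop_card_le : (unpop p X).card ≤ 2 * p * p ^ (n + k) := by
  classical
  have h1 : (unpop p X).card = ∑ s : (Fin n → ZMod p) × (Fin k → ZMod p),
      ((unpop p X).filter (fun r => r.1 + r.2 = s)).card :=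
    card_eq_sum_card_fiberwise (fun _ _ => mem_univ _)
  have h2 : ∀ s : (Fin n → ZMod p) × (Fin k → ZMod p),
      ((unpop p X).filter (fun r => r.1 + r.2 = s)).card ≤ 2 * p := by
    intro s
    by_cases hne : ((unpop p X).filter (fun r => r.1 + r.2 = s)).Nonempty
    · obtain ⟨r0, hr0⟩ := hne
      rw [mem_filter, unpop, mem_filter] at hr0
      have hlt := hr0.1.2.2
      rw [hr0.2] at hlt
      refine le_trans (card_le_card_of_injOn (fun r => r.1) ?_ ?_) hlt.le
      · intro r hr
        rw [mem_coe, mem_filter, unpop, mem_filter, mem_product] at hr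
        rw [mem_coe, rep, mem_filter]
        have e : s - r.1 = r.2 := by rw [← hr.2]; abel
        rw [e]
        exact ⟨hr.1.1.1, hr.1.1.2, hr.1.2.1⟩
      · intro r hr r' hr' h
        rw [mem_coe, mem_filter] at hr hr'
        have e : r.2 = r'.2 := by
          have h1 : r.1 + r.2 = r'.1 + r'.2 := hr.2.trans hr'.2.symm
          simp only at h
          rw [h] at h1
          exact add_left_cancel h1
        exact Prod.ext h e
    · rw [not_nonempty_iff_eq_empty] at hne
      rw [hne]
      simp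
  rw [h1]
  refine (sum_le_sum (fun s _ => h2 s)).trans ?_
  rw [sum_const, smul_eq_mul, card_univ, Fintype.card_prod]
  simp [ZMod.card, pow_add, mul_comm, mul_left_comm, mul_assoc]

lemma sum_onGraph : ∑ q, (onGraph p X q).card =
    Fintype.card (Matrix (Fin k) (Fin n) (ZMod p)) * X.card := by
  classical
  rw [Fintype.sum_prod_type]
  have : ∀ M : Matrix (Fin k) (Fin n) (ZMod p), ∑ v, (onGraph p X (M, v)).card = X.card := by
    intro M
    have e : ∀ v, (onGraph p X (M, v)).card = ∑ z ∈ X, if z.2 - M *ᵥ z.1 = v then 1 else 0 := by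
      intro v
      rw [onGraph, card_filter]
    rw [sum_congr rfl (fun v _ => e v), sum_comm, card_eq_sum_ones]
    apply sum_congr rfl
    intro z _
    rw [sum_ite_eq univ (z.2 - M *ᵥ z.1) (fun _ => 1), if_pos (mem_univ _)]
  rw [sum_congr rfl (fun M _ => this M), sum_const, smul_eq_mul, card_univ]

lemma sum_unpopOn : p ^ k * ∑ q, (unpopOn p X q).card ≤
    Fintype.card (Matrix (Fin k) (Fin n) (ZMod p)) * (unpop p X).card := by
  classical
  have h1 : ∀ M : Matrix (Fin k) (Fin n) (ZMod p), ∑ v, (unpopOn p X (M, v)).card =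
      ∑ r ∈ unpop p X, if M *ᵥ (r.1.1 - r.2.1) = r.1.2 - r.2.2 then 1 else 0 := by
    intro M
    have e : ∀ v, (unpopOn p X (M, v)).card = ∑ r ∈ unpop p X,
        if (r.1.2 - M *ᵥ r.1.1 = v ∧ r.2.2 - M *ᵥ r.2.1 = v) then 1 else 0 := by
      intro v
      rw [unpopOn, card_eq_sum_ones, sum_filter]
    rw [sum_congr rfl (fun v _ => e v), sum_comm]
    apply sum_congr rfl
    intro r _
    by_cases h : M *ᵥ (r.1.1 - r.2.1) = r.1.2 - r.2.2
    · rw [if_pos h, sum_eq_single (r.1.2 - M *ᵥ r.1.1)]
      · rw [if_pos]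
        refine ⟨rfl, ?_⟩
        rw [Matrix.mulVec_sub] at h
        have h' : r.2.2 - M *ᵥ r.2.1 - (r.1.2 - M *ᵥ r.1.1) =
          (M *ᵥ r.1.1 - M *ᵥ r.2.1) - (r.1.2 - r.2.2) := by abel
        rw [h, sub_self] at h'
        exact sub_eq_zero.mp h'
      · intro v _ hv
        rw [if_neg]
        rintro ⟨h1, _⟩
        exact hv h1.symm
      · intro h; exact (h (mem_univ _)).elim
    · rw [if_neg h]
      apply sum_eq_zero
      intro v _
      rw [if_neg]
      rintro ⟨h1, h2⟩
      apply h
      rw [Matrix.mulVec_sub]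
      have h' : (M *ᵥ r.1.1 - M *ᵥ r.2.1) - (r.1.2 - r.2.2) =
        (r.2.2 - M *ᵥ r.2.1) - (r.1.2 - M *ᵥ r.1.1) := by abel
      rw [h1, h2, sub_self] at h'
      exact sub_eq_zero.mp h'
  rw [Fintype.sum_prod_type, sum_congr rfl (fun M _ => h1 M), sum_comm, mul_sum,
    mul_comm (Fintype.card _) _, card_eq_sum_ones, sum_mul]
  apply sum_le_sum
  intro r hr
  rw [unpop, mem_filter] at hr
  rw [one_mul, ← sum_filter, ← card_eq_sum_ones]
  by_cases hz : r.1.1 - r.2.1 = 0
  · have hempty : (univ.filter (fun M : Matrix (Fin k) (Fin n) (ZMod p) =>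
        M *ᵥ (r.1.1 - r.2.1) = r.1.2 - r.2.2)) = ∅ := by
      rw [filter_eq_empty_iff]
      intro M _ h
      rw [hz, Matrix.mulVec_zero] at h
      apply hr.2.1
      exact Prod.ext (sub_eq_zero.mp hz) (sub_eq_zero.mp h.symm)
    rw [hempty]
    simp
  · exact (card_fiber p _ hz _).le

/-- **Main reduction.** An admissible set is controlled by a strong set in lower dimension. -/
theorem adm_bound (hp3 : 3 ≤ p) (hX : Adm p X) :
    ∃ Y : Finset (Fin n → ZMod p), Strong p Y ∧
      X.card ≤ p ^ k * (2 ^ (p / 2) * Y.card) + 2 * p * p ^ n := by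
  classical
  have hprime : p.Prime := Fact.out
  have hppos : 0 < p := hprime.pos
  obtain ⟨m, hm⟩ : ∃ m, p = 2 * m + 1 := hprime.odd_of_ne_two (by omega)
  have hm1 : 1 ≤ m := by omega
  have hm2 : p / 2 = m := by omega
  set H := Fintype.card (Matrix (Fin k) (Fin n) (ZMod p)) with hH
  -- a good graph
  have hex : ∃ q, p ^ k * X.card + p ^ (2 * k) * (unpopOn p X q).card ≤
      p ^ (2 * k) * (onGraph p X q).card + (unpop p X).card := by
    by_contra hcon
    push Not at hcon
    have hne : (univ : Finset (Matrix (Fin k) (Fin n) (ZMod p) × (Fin k → ZMod p))).Nonempty :=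
      univ_nonempty
    have h1 := sum_lt_sum_of_nonempty hne (fun q _ => hcon q)
    simp only [sum_add_distrib, ← mul_sum] at h1
    rw [sum_onGraph, sum_const, sum_const, smul_eq_mul, smul_eq_mul, card_univ,
      Fintype.card_prod, ← hH] at h1
    have h2 := Nat.mul_le_mul_left (p ^ k) (sum_unpopOn p X)
    rw [← hH] at h2
    have e1 : Fintype.card (Fin k → ZMod p) = p ^ k := by simp [ZMod.card]
    rw [e1] at h1
    have e2 : p ^ (2 * k) = p ^ k * p ^ k := by rw [two_mul, pow_add]
    rw [e2] at h1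
    have e3 : p ^ k * (H * p ^ k * X.card) = p ^ k * p ^ k * (H * X.card) := by ring
    have e4 : p ^ k * p ^ k * ∑ q, (unpopOn p X q).card =
      p ^ k * (p ^ k * ∑ q, (unpopOn p X q).card) := by ring
    have e5 : H * p ^ k * (unpop p X).card = p ^ k * (H * (unpop p X).card) := by ring
    rw [e3, e4, e5] at h1
    omega
  obtain ⟨q, hq⟩ := hex
  let D := onGraph p X q
  let Y := D.filter (fun a => ∀ b ∈ D, a ≠ b → 2 * p ≤ (rep X (a + b)).card)
  have hDX : D ⊆ X := filter_subset _ _
  have hYD : Y ⊆ D := filter_subset _ _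
  have hpop : Pop p X Y := by
    intro a ha b hb hab
    exact (mem_filter.mp ha).2 b (hYD hb) hab
  have hDY : D.card ≤ Y.card + (unpopOn p X q).card := by
    have h1 : D \ Y ⊆ (unpopOn p X q).image (fun r => r.1) := by
      intro a ha
      rw [mem_sdiff] at ha
      have h2 : ¬ ∀ b ∈ D, a ≠ b → 2 * p ≤ (rep X (a + b)).card := by
        intro h
        exact ha.2 (mem_filter.mpr ⟨ha.1, h⟩)
      push Not at h2
      obtain ⟨b, hb, hab, hlt⟩ := h2
      rw [mem_image]
      refine ⟨(a, b), ?_, rfl⟩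
      rw [unpopOn, mem_filter, unpop, mem_filter, mem_product]
      have ha1 := mem_filter.mp ha.1
      have hb1 := mem_filter.mp hb
      exact ⟨⟨⟨ha1.1, hb1.1⟩, hab, hlt⟩, ha1.2, hb1.2⟩
    have h3 := card_le_card h1
    have h4 : ((unpopOn p X q).image (fun r => r.1)).card ≤ (unpopOn p X q).card := card_image_le
    have h5 := card_le_card_sdiff_add_card (s := D) (t := Y)
    omega
  have hpG : ∀ g : (Fin n → ZMod p) × (Fin k → ZMod p), p • g = 0 := by
    intro g
    ext i
    · simp
    · simp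
  obtain ⟨Y', hY'Y, hc, hs⟩ := exists_strong hpG hX (hYD.trans hDX) hpop m hm1 hm
  have hgraph : ∀ z ∈ Y', z.2 = q.1 *ᵥ z.1 + q.2 := by
    intro z hz
    have h1 := (mem_filter.mp (hYD (hY'Y hz))).2
    rw [← h1]
    abel
  refine ⟨Y'.image Prod.fst, ?_, ?_⟩
  · -- strong
    intro x hx hsum j l
    have hlift : ∀ j, (x j, q.1 *ᵥ (x j) + q.2) ∈ Y' := by
      intro j
      obtain ⟨z, hz, hzx⟩ := mem_image.mp (hx j)
      rw [← hzx, ← hgraph z hz]
      exact hz
    have h1 := hs (fun j => (x j, q.1 *ᵥ (x j) + q.2)) hlift ?_ j l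
    · exact (Prod.ext_iff.mp h1).1
    · have e1 : ∑ j, (x j, q.1 *ᵥ (x j) + q.2) =
          (∑ j, x j, ∑ j, (q.1 *ᵥ (x j) + q.2)) := by
        rw [Prod.ext_iff]
        constructor
        · rw [Prod.fst_sum]
        · rw [Prod.snd_sum]
      rw [e1, hsum, sum_add_distrib, sum_const, card_univ, Fintype.card_fin]
      have e2 : ∑ j, q.1 *ᵥ (x j) = q.1 *ᵥ (∑ j, x j) := by
        have := map_sum (Matrix.mulVecLin q.1) x univ
        simp only [Matrix.mulVecLin_apply] at this
        exact this.symm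
      rw [e2, hsum, Matrix.mulVec_zero, zero_add]
      ext i
      · simp
      · simp
  · have hinj : (Y'.image Prod.fst).card = Y'.card := by
      apply card_image_of_injOn
      intro z hz z' hz' h
      have h1 := hgraph z hz
      have h2 := hgraph z' hz'
      rw [← h] at h2
      exact Prod.ext h (h1.trans h2.symm)
    rw [hinj, hm2]
    have hU := unpop_card_le p X
    have e2 : p ^ (2 * k) = p ^ k * p ^ k := by rw [two_mul, pow_add]
    rw [e2] at hq
    have h6 : p ^ k * p ^ k * D.card ≤ p ^ k * p ^ k * (2 ^ m * Y'.card) +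
        p ^ k * p ^ k * (unpopOn p X q).card := by
      rw [← mul_add]
      apply Nat.mul_le_mul_left
      omega
    have h7 : p ^ k * X.card ≤ p ^ k * (p ^ k * (2 ^ m * Y'.card) + 2 * p * p ^ n) := by
      have e3 : p ^ k * (p ^ k * (2 ^ m * Y'.card) + 2 * p * p ^ n) =
        p ^ k * p ^ k * (2 ^ m * Y'.card) + 2 * p * p ^ (n + k) := by
        rw [pow_add]; ring
      rw [e3]
      have hq' : p ^ k * X.card + p ^ k * p ^ k * (unpopOn p X q).card ≤
        p ^ k * p ^ k * D.card + (unpop p X).card := hq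
      omega
    exact Nat.le_of_mul_le_mul_left h7 (pow_pos hppos k)

end

end Pool.Agent.EGZ81
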