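import Mathlib

/-!
# Slice rank of diagonal tensors, and sets without nontrivial zero sums
-/

namespace Pool.Agent.EGZ81

open Finset

section Slice

variable {F : Type*} [Field F] [DecidableEq F] {ι κ : Type*} [Fintype ι] [Fintype κ] [DecidableEq ι]

omit [DecidableEq F] in
/-- More unknowns than equations. -/
lemma exists_relation (f : κ → ι → F) (Z : Finset ι) (hZ : Fintype.card κ < Z.card) :
    ∃ w : ι → F, w ≠ 0 ∧ (∀ i ∉ Z, w i = 0) ∧ ∀ α, ∑ i, w i * f α i = 0 := by
  classical
  let L : (Z → F) →ₗ[F] (κ → F) :=
    { toFun := fun u α => ∑ i : Z, u i * f α i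
      map_add' := by
        intro u v; funext α; simp [add_mul, sum_add_distrib]
      map_smul' := by
        intro c u; funext α; simp [mul_sum, mul_assoc] }
  have hker : LinearMap.ker L ≠ ⊥ := by
    apply LinearMap.ker_ne_bot_of_finrank_lt
    rw [Module.finrank_fintype_fun_eq_card, Module.finrank_fintype_fun_eq_card]
    simpa using hZ
  obtain ⟨u, hu, hu0⟩ := (Submodule.ne_bot_iff _).mp hker
  refine ⟨fun i => if h : i ∈ Z then u ⟨i, h⟩ else 0, ?_, ?_, ?_⟩
  · intro h0
    apply hu0
    funext i
    have := congrFun h0 i.1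
    simpa [i.2] using this
  · intro i hi
    simp [hi]
  · intro α
    have h1 : L u α = 0 := by rw [LinearMap.mem_ker.mp hu]; rfl
    have h2 : L u α = ∑ i : Z, u i * f α i := rfl
    rw [h2] at h1
    refine Eq.trans ?_ h1
    rw [← sum_subset (subset_univ Z), ← sum_coe_sort Z]
    · apply sum_congr rfl
      intro i _
      simp [i.2]
    · intro i _ hi
      simp only [dif_neg hi, zero_mul]

/-- A vector with large support orthogonal to given vectors. -/
lemma exists_large_support (f : κ → ι → F) (Z : Finset ι) :
    ∃ h : ι → F, (∀ i ∉ Z, h i = 0) ∧ (∀ α, ∑ i, h i * f α i = 0) ∧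
      Z.card ≤ (univ.filter (fun i => h i ≠ 0)).card + Fintype.card κ := by
  classical
  -- choose a maximal support size
  let P : ℕ → Prop := fun n => ∃ h : ι → F, (∀ i ∉ Z, h i = 0) ∧ (∀ α, ∑ i, h i * f α i = 0) ∧
    (univ.filter (fun i => h i ≠ 0)).card = n
  have hP0 : P 0 := ⟨0, by simp, by simp, by simp⟩
  have hbd : ∀ n, P n → n ≤ Fintype.card ι := by
    rintro n ⟨h, _, _, rfl⟩
    exact card_le_univ _
  obtain ⟨h, h1, h2, h3⟩ : P (Nat.findGreatest P (Fintype.card ι)) :=
    Nat.findGreatest_spec (Nat.zero_le _) hP0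
  refine ⟨h, h1, h2, ?_⟩
  by_contra hlt
  rw [not_le] at hlt
  let S := univ.filter (fun i => h i ≠ 0)
  have hSZ : S ⊆ Z := by
    intro i hi
    by_contra hiZ
    exact (mem_filter.mp hi).2 (h1 i hiZ)
  have hcard : Fintype.card κ < (Z \ S).card := by
    rw [card_sdiff_of_subset hSZ]
    have : S.card = (univ.filter (fun i => h i ≠ 0)).card := rfl
    omega
  obtain ⟨w, hw0, hw1, hw2⟩ := exists_relation f (Z \ S) hcard
  have hnew : P ((univ.filter (fun i => (h + w) i ≠ 0)).card) := by
    refine ⟨h + w, ?_, ?_, rfl⟩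
    · intro i hi
      have : i ∉ Z \ S := fun h => hi (mem_sdiff.mp h).1
      simp [h1 i hi, hw1 i this]
    · intro α
      simp only [Pi.add_apply, add_mul, sum_add_distrib]
      rw [h2, hw2, add_zero]
  have hle := Nat.le_findGreatest (hbd _ hnew) hnew
  have hsub : S ⊂ univ.filter (fun i => (h + w) i ≠ 0) := by
    rw [Finset.ssubset_iff_of_subset]
    · obtain ⟨i, hi⟩ := Function.ne_iff.mp hw0
      have hiS : i ∉ S := by
        intro hiS
        apply hi
        exact hw1 i (fun h => (mem_sdiff.mp h).2 hiS)
      refine ⟨i, ?_, hiS⟩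
      have hh : h i = 0 := by
        by_contra hh
        exact hiS (mem_filter.mpr ⟨mem_univ _, hh⟩)
      rw [mem_filter]
      refine ⟨mem_univ _, ?_⟩
      rw [Pi.add_apply, hh, zero_add]
      exact hi
    · intro i hi
      rw [mem_filter]
      refine ⟨mem_univ _, ?_⟩
      have : w i = 0 := hw1 i (fun h => (mem_sdiff.mp h).2 hi)
      rw [Pi.add_apply, this, add_zero]
      exact (mem_filter.mp hi).2
  have := card_lt_card hsub
  have h3' : S.card = Nat.findGreatest P (Fintype.card ι) := h3
  omega

/-- Two-variable case. -/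
lemma slice_two (c : ι → F) (f g f' g' : κ → ι → F)
    (h : ∀ i j, (if i = j then c i else 0) = ∑ α, f α i * g α j + ∑ α, f' α j * g' α i) :
    (univ.filter (fun i => c i ≠ 0)).card ≤ 2 * Fintype.card κ := by
  classical
  let A : Matrix ι (κ ⊕ κ) F := fun i s => Sum.elim (fun α => f α i) (fun α => g' α i) s
  let B : Matrix (κ ⊕ κ) ι F := fun s j => Sum.elim (fun α => g α j) (fun α => f' α j) s
  have hAB : Matrix.diagonal c = A * B := by
    ext i j
    rw [Matrix.diagonal_apply, h, Matrix.mul_apply, Fintype.sum_sum_type]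
    simp only [A, B, Sum.elim_inl, Sum.elim_inr]
    congr 1
    apply sum_congr rfl
    intro α _
    ring
  have hr : (Matrix.diagonal c).rank ≤ Fintype.card (κ ⊕ κ) := by
    rw [hAB]
    exact (Matrix.rank_mul_le_left A B).trans (Matrix.rank_le_card_width A)
  rw [Matrix.rank_diagonal] at hr
  rw [← Fintype.card_subtype]
  simpa [two_mul] using hr

/-- The slice rank of a diagonal tensor. -/
lemma slice_rank (m : ℕ) : ∀ (c : ι → F) (f : Fin (m + 2) → κ → ι → F)
    (g : Fin (m + 2) → κ → (Fin (m + 2) → ι) → F),
    (∀ j α y y', (∀ i, i ≠ j → y i = y' i) → g j α y = g j α y') →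
    (∀ y : Fin (m + 2) → ι, (if ∀ i, y i = y 0 then c (y 0) else 0) =
      ∑ j, ∑ α, f j α (y j) * g j α y) →
    (univ.filter (fun i => c i ≠ 0)).card ≤ (m + 2) * Fintype.card κ := by
  classical
  induction m with
  | zero =>
    intro c f g hg h
    by_cases hne : Nonempty ι
    swap
    · have : (univ : Finset ι) = ∅ := by
        rw [univ_eq_empty_iff]; exact not_nonempty_iff.mp hne
      rw [this]; simp
    obtain ⟨t0⟩ := hne
    apply slice_two c (f 0) (fun α j => g 0 α ![t0, j]) (f 1) (fun α i => g 1 α ![i, t0])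
    intro i j
    have h1 := h ![i, j]
    rw [Fin.sum_univ_two] at h1
    have e0 : ∀ α, g 0 α ![i, j] = g 0 α ![t0, j] := by
      intro α
      apply hg
      intro k hk
      fin_cases k
      · exact (hk rfl).elim
      · rfl
    have e1 : ∀ α, g 1 α ![i, j] = g 1 α ![i, t0] := by
      intro α
      apply hg
      intro k hk
      fin_cases k
      · rfl
      · exact (hk rfl).elim
    simp only [e0, e1] at h1
    have e2 : (∀ k : Fin 2, (![i, j] : Fin 2 → ι) k = ![i, j] 0) ↔ i = j := by
      rw [Fin.forall_fin_two]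
      simp [eq_comm]
    simp only [e2] at h1
    exact h1
  | succ m ih =>
    intro c f g hg h
    by_cases hne : Nonempty ι
    swap
    · have : (univ : Finset ι) = ∅ := by
        rw [univ_eq_empty_iff]; exact not_nonempty_iff.mp hne
      rw [this]; simp
    obtain ⟨t0⟩ := hne
    obtain ⟨w, hw1, hw2, hw3⟩ := exists_large_support (f 0) (univ.filter (fun i => c i ≠ 0))
    have key := ih (fun i => w i * c i) (fun j => f j.succ)
      (fun j α y => ∑ t, w t * g j.succ α (Fin.cons t y)) ?_ ?_
    · have hsub : univ.filter (fun i => w i ≠ 0) ⊆ univ.filter (fun i => w i * c i ≠ 0) := by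
        intro i hi
        rw [mem_filter] at hi ⊢
        refine ⟨mem_univ _, mul_ne_zero hi.2 ?_⟩
        intro hc
        exact hi.2 (hw1 i (by simp [hc]))
      have := card_le_card hsub
      have e : (m + 1 + 2) * Fintype.card κ = (m + 2) * Fintype.card κ + Fintype.card κ := by ring
      rw [e]
      omega
    · intro j α y y' hyy
      apply sum_congr rfl
      intro t _
      congr 1
      apply hg
      intro i hi
      refine Fin.cases ?_ (fun i => ?_) i hi
      · intro _; rfl
      · intro hi
        rw [Fin.cons_succ, Fin.cons_succ]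
        exact hyy i (fun h => hi (by rw [h]))
    · intro y
      have h1 : ∀ t, w t * (if ∀ i, (Fin.cons t y : Fin (m + 1 + 2) → ι) i =
          (Fin.cons t y : Fin (m + 1 + 2) → ι) 0 then c t else 0) =
          ∑ j, ∑ α, w t * (f j α ((Fin.cons t y : Fin (m + 1 + 2) → ι) j) *
            g j α (Fin.cons t y)) := by
        intro t
        have := h (Fin.cons t y)
        rw [Fin.cons_zero] at this
        rw [Fin.cons_zero, this, mul_sum]
        apply sum_congr rfl
        intro j _
        rw [mul_sum]
      have h2 : ∑ t, w t * (if ∀ i, (Fin.cons t y : Fin (m + 1 + 2) → ι) i =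
          (Fin.cons t y : Fin (m + 1 + 2) → ι) 0 then c t else 0) =
          (if ∀ i, y i = y 0 then w (y 0) * c (y 0) else 0) := by
        have h3 : ∀ t, (∀ i, (Fin.cons t y : Fin (m + 1 + 2) → ι) i =
          (Fin.cons t y : Fin (m + 1 + 2) → ι) 0) ↔ ((∀ i, y i = y 0) ∧ t = y 0) := by
          intro t
          rw [Fin.forall_fin_succ]
          simp only [Fin.cons_zero, Fin.cons_succ, true_and]
          constructor
          · intro h
            exact ⟨fun i => by rw [h i, h 0], (h 0).symm⟩
          · rintro ⟨h, rfl⟩ i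
            exact h i
        by_cases hy : ∀ i, y i = y 0
        · rw [if_pos hy, sum_eq_single (y 0)]
          · rw [if_pos ((h3 _).mpr ⟨hy, rfl⟩)]
          · intro t _ ht
            rw [if_neg (fun h => ht ((h3 t).mp h).2), mul_zero]
          · intro h; exact (h (mem_univ _)).elim
        · rw [if_neg hy]
          apply sum_eq_zero
          intro t _
          rw [if_neg (fun h => hy ((h3 t).mp h).1), mul_zero]
      rw [← h2, sum_congr rfl (fun t _ => h1 t), sum_comm, Fin.sum_univ_succ]
      have h4 : ∑ t, ∑ α, w t * (f 0 α ((Fin.cons t y : Fin (m + 1 + 2) → ι) 0) *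
          g 0 α (Fin.cons t y)) = 0 := by
        rw [sum_comm]
        apply sum_eq_zero
        intro α _
        have e : ∀ t, g 0 α (Fin.cons t y) = g 0 α (Fin.cons t0 y) := by
          intro t
          apply hg
          intro i hi
          refine Fin.cases ?_ (fun i => ?_) i hi
          · intro h; exact (h rfl).elim
          · intro _; rfl
        have : ∀ t, w t * (f 0 α ((Fin.cons t y : Fin (m + 1 + 2) → ι) 0) *
          g 0 α (Fin.cons t y)) = (w t * f 0 α t) * g 0 α (Fin.cons t0 y) := by
          intro t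
          rw [e, Fin.cons_zero]; ring
        rw [sum_congr rfl (fun t _ => this t), ← sum_mul, hw2, zero_mul]
      rw [h4, zero_add]
      apply sum_congr rfl
      intro j _
      rw [sum_comm]
      apply sum_congr rfl
      intro α _
      rw [mul_sum]
      apply sum_congr rfl
      intro t _
      rw [Fin.cons_succ]
      ring

end Slice

end Pool.Agent.EGZ81
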