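import Pool.Agent.EGZ81.Slice

/-!
# Sets in `(Z/p)^d` in which every zero sum of length `p` is constant
-/

namespace Pool.Agent.EGZ81

open Finset

/-- Every zero sum of length `p` with terms in `Y` is constant. -/
def Strong (p : ℕ) {G : Type*} [AddCommGroup G] (Y : Finset G) : Prop :=
  ∀ x : Fin p → G, (∀ j, x j ∈ Y) → ∑ j, x j = 0 → ∀ j k, x j = x k

/-- Exponent vectors of monomials of degree at most `(p-1) d / p` with all exponents `< p`. -/
def lowSet (p d : ℕ) : Finset (Fin d → Fin p) :=
  univ.filter (fun m => p * ∑ i, (m i : ℕ) ≤ (p - 1) * d)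

section

variable (p : ℕ)

/-- Exponent patterns of one coordinate. -/
noncomputable def pat : Finset (Fin p → ℕ) :=
  insert 0 (piAntidiag univ (p - 1))

/-- Coefficients of one coordinate. -/
noncomputable def coef (k : Fin p → ℕ) : ZMod p :=
  open Classical in
  if k = 0 then 1 else -((Nat.multinomial univ k : ℕ) : ZMod p)

lemma coord_expand (hp : 2 ≤ p) (z : Fin p → ZMod p) :
    1 - (∑ j, z j) ^ (p - 1) = ∑ k ∈ pat p, coef p k * ∏ j, z j ^ k j := by
  classical
  have h0 : (0 : Fin p → ℕ) ∉ piAntidiag (univ : Finset (Fin p)) (p - 1) := by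
    rw [mem_piAntidiag]
    rintro ⟨h, _⟩
    simp at h
    omega
  rw [pat, sum_insert h0, sum_pow_eq_sum_piAntidiag]
  have e1 : coef p 0 = 1 := by simp [coef]
  have e2 : ∀ k ∈ piAntidiag (univ : Finset (Fin p)) (p - 1),
      coef p k * ∏ j, z j ^ k j = -(((Nat.multinomial univ k : ℕ) : ZMod p) * ∏ j, z j ^ k j) := by
    intro k hk
    have : k ≠ 0 := by rintro rfl; exact h0 hk
    rw [coef, if_neg this, neg_mul]
  rw [sum_congr rfl e2, e1, sum_neg_distrib]
  simp [sub_eq_add_neg]

lemma pat_sum_le (hp : 2 ≤ p) (k : Fin p → ℕ) (hk : k ∈ pat p) : ∑ j, k j ≤ p - 1 := by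
  classical
  rw [pat, mem_insert, mem_piAntidiag] at hk
  rcases hk with rfl | ⟨h, _⟩
  · simp
  · exact h.le

variable [Fact p.Prime]

lemma indicator (s : ZMod p) : 1 - s ^ (p - 1) = if s = 0 then 1 else 0 := by
  by_cases h : s = 0
  · subst h
    have : p - 1 ≠ 0 := by
      have := (Fact.out : p.Prime).two_le
      omega
    simp [this]
  · rw [if_neg h, ZMod.pow_card_sub_one_eq_one h, sub_self]

/-- Choice of a variable of low degree. -/
lemma exists_low {d : ℕ} (E : Fin d → Fin p → ℕ) (hE : ∀ i, ∑ j, E i j ≤ p - 1) :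
    ∃ j : Fin p, p * ∑ i, E i j ≤ (p - 1) * d := by
  classical
  by_contra hcon
  simp only [not_exists, not_le] at hcon
  have hp := (Fact.out : p.Prime).two_le
  have h1 : ∑ j : Fin p, (p - 1) * d < ∑ j : Fin p, p * ∑ i, E i j := by
    apply sum_lt_sum_of_nonempty
    · exact ⟨⟨0, by omega⟩, mem_univ _⟩
    · intro j _; exact hcon j
  have hc : ∑ j, p * ∑ i, E i j = p * ∑ i, ∑ j, E i j := by rw [← mul_sum, sum_comm]
  rw [hc] at h1
  have h2 : ∑ i : Fin d, ∑ j, E i j ≤ ∑ _i : Fin d, (p - 1) := sum_le_sum (fun i _ => hE i)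
  simp only [sum_const, card_univ, Fintype.card_fin, smul_eq_mul] at h1 h2
  have h3 := Nat.mul_le_mul_left p h2
  have : p * ((p - 1) * d) = p * (d * (p - 1)) := by ring
  omega

/-- **Slice rank bound** for strong sets. -/
theorem strong_card_le {d : ℕ} (Y : Finset (Fin d → ZMod p)) (hY : Strong p Y) :
    Y.card ≤ p * (lowSet p d).card := by
  classical
  have hp := (Fact.out : p.Prime).two_le
  obtain ⟨m, hm⟩ : ∃ m, p = m + 2 := ⟨p - 2, by omega⟩
  -- the index of the low variable
  let J : (Fin d → Fin p → ℕ) → Fin p := fun E =>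
    if h : ∃ j : Fin p, p * ∑ i, E i j ≤ (p - 1) * d then h.choose else ⟨0, by omega⟩
  have hJ : ∀ E ∈ Fintype.piFinset (fun _ : Fin d => pat p),
      p * ∑ i, E i (J E) ≤ (p - 1) * d := by
    intro E hE
    rw [Fintype.mem_piFinset] at hE
    have h := exists_low p E (fun i => pat_sum_le p hp _ (hE i))
    simp only [J, dif_pos h]
    exact h.choose_spec
  have hlt : ∀ E ∈ Fintype.piFinset (fun _ : Fin d => pat p), ∀ i j, E i j < p := by
    intro E hE i j
    rw [Fintype.mem_piFinset] at hE
    have h1 := pat_sum_le p hp _ (hE i)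
    have h2 : E i j ≤ ∑ j, E i j := single_le_sum (fun _ _ => Nat.zero_le _) (mem_univ j)
    omega
  -- the functions
  let f : Fin p → (lowSet p d) → Y → ZMod p := fun _ α y => ∏ i, (y.1 i) ^ ((α.1 i : ℕ))
  let g : Fin p → (lowSet p d) → (Fin p → Y) → ZMod p := fun j α y =>
    ∑ E ∈ (Fintype.piFinset (fun _ : Fin d => pat p)).filter
      (fun E => J E = j ∧ ∀ i, E i j = (α.1 i : ℕ)),
      (∏ i, coef p (E i)) * ∏ j' ∈ univ.erase j, ∏ i, ((y j').1 i) ^ (E i j')
  have hg : ∀ j α y y', (∀ i, i ≠ j → y i = y' i) → g j α y = g j α y' := by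
    intro j α y y' h
    apply sum_congr rfl
    intro E _
    congr 1
    apply prod_congr rfl
    intro j' hj'
    rw [h j' (ne_of_mem_erase hj')]
  have hexp : ∀ y : Fin p → Y, (if ∑ j, (y j).1 = 0 then (1 : ZMod p) else 0) =
      ∑ j, ∑ α, f j α (y j) * g j α y := by
    intro y
    have h1 : (if ∑ j, (y j).1 = 0 then (1 : ZMod p) else 0) =
        ∏ i : Fin d, (1 - (∑ j, (y j).1 i) ^ (p - 1)) := by
      have e : ∀ i : Fin d, (1 - (∑ j, (y j).1 i) ^ (p - 1)) =
          if ∑ j, (y j).1 i = 0 then (1 : ZMod p) else 0 := fun i => indicator p _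
      rw [prod_congr rfl (fun i _ => e i)]
      by_cases hs : ∑ j, (y j).1 = 0
      · rw [if_pos hs]
        symm
        apply prod_eq_one
        intro i _
        have := congrFun hs i
        rw [Finset.sum_apply, Pi.zero_apply] at this
        rw [if_pos this]
      · rw [if_neg hs]
        symm
        obtain ⟨i, hi⟩ := Function.ne_iff.mp hs
        rw [Finset.sum_apply, Pi.zero_apply] at hi
        exact prod_eq_zero (mem_univ i) (if_neg hi)
    rw [h1, prod_congr rfl (fun i _ => coord_expand p hp (fun j => (y j).1 i)), prod_univ_sum]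
    -- regroup
    have h2 : ∀ E ∈ Fintype.piFinset (fun _ : Fin d => pat p),
        ∏ i, (coef p (E i) * ∏ j, (y j).1 i ^ E i j) =
        ∑ j, ∑ α : lowSet p d, (if J E = j ∧ ∀ i, E i j = (α.1 i : ℕ) then
          f j α (y j) * ((∏ i, coef p (E i)) *
            ∏ j' ∈ univ.erase j, ∏ i, ((y j').1 i) ^ (E i j')) else 0) := by
      intro E hE
      let α0 : lowSet p d := ⟨fun i => ⟨E i (J E), hlt E hE i (J E)⟩, by
        rw [lowSet, mem_filter]
        exact ⟨mem_univ _, hJ E hE⟩⟩
      rw [sum_eq_single (J E)]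
      · rw [sum_eq_single α0]
        · rw [if_pos ⟨rfl, fun i => rfl⟩, prod_mul_distrib]
          have e3 : ∏ i, ∏ j, (y j).1 i ^ E i j = ∏ j, ∏ i, (y j).1 i ^ E i j := prod_comm
          rw [e3, ← mul_prod_erase univ _ (mem_univ (J E))]
          simp only [f, α0]
          ring
        · intro α _ hα
          rw [if_neg]
          rintro ⟨_, h⟩
          apply hα
          apply Subtype.ext
          funext i
          apply Fin.ext
          exact (h i).symm
        · intro h; exact (h (mem_univ _)).elim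
      · intro j _ hj
        apply sum_eq_zero
        intro α _
        rw [if_neg]
        rintro ⟨h, _⟩
        exact hj h.symm
      · intro h; exact (h (mem_univ _)).elim
    rw [sum_congr rfl h2, sum_comm]
    apply sum_congr rfl
    intro j _
    rw [sum_comm]
    apply sum_congr rfl
    intro α _
    rw [← sum_filter, ← mul_sum]
  have hdiag : ∀ y : Fin p → Y, (if ∑ j, (y j).1 = 0 then (1 : ZMod p) else 0) =
      if ∀ i, y i = y ⟨0, by omega⟩ then 1 else 0 := by
    intro y
    by_cases hy : ∀ i, y i = y ⟨0, by omega⟩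
    · rw [if_pos hy, if_pos]
      rw [sum_congr rfl (fun j _ => by rw [hy j])]
      rw [sum_const, card_univ, Fintype.card_fin]
      funext i
      simp
    · rw [if_neg hy, if_neg]
      intro hs
      apply hy
      intro i
      apply Subtype.ext
      exact hY (fun j => (y j).1) (fun j => (y j).2) hs _ _
  subst hm
  have := slice_rank (F := ZMod (m + 2)) (ι := Y) (κ := lowSet (m + 2) d) m (fun _ => 1) f g hg
    (by
      intro y
      rw [← hexp y, hdiag y]
      rfl)
  simpa using this

end

end Pool.Agent.EGZ81
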